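import Pool.Agent.V11164.RightTriMain

set_option autoImplicit false

open MeasureTheory
open scoped Pointwise

namespace Pool.Agent.Results.MP_49a3fa_co.PentagonCounterexample

/-- There is a plane convex body `K` of area `1` such that every right triangle `ABC`
(non-degenerate, right angle at `A`) containing `K` has area greater than `2`. -/
theorem result : ∃ K : Set (EuclideanSpace ℝ (Fin 2)),
    IsCompact K ∧ Convex ℝ K ∧ (interior K).Nonempty ∧ volume K = 1 ∧
    ∀ A B C : EuclideanSpace ℝ (Fin 2), B ≠ A → C ≠ A → inner ℝ (B - A) (C - A) = 0 →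
      K ⊆ convexHull ℝ {A, B, C} →
      2 < volume (convexHull ℝ ({A, B, C} : Set (EuclideanSpace ℝ (Fin 2)))) := by
  have hK0 := Pool.Agent.V11164.RightTri.K0_compact
  have hK0i := Pool.Agent.V11164.RightTri.K0_interior
  set K0 := Pool.Agent.V11164.RightTri.K0 with hK0def
  have hfin : volume K0 ≠ ⊤ := hK0.measure_lt_top.ne
  have hpos : volume K0 ≠ 0 := by
    have := isOpen_interior.measure_pos volume hK0i
    exact (this.trans_le (measure_mono interior_subset)).ne'
  set V : ℝ := (volume K0).toReal with hV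
  have hV0 : 0 < V := ENNReal.toReal_pos hpos hfin
  have hVe : volume K0 = ENNReal.ofReal V := (ENNReal.ofReal_toReal hfin).symm
  obtain ⟨s, hs, hs2⟩ : ∃ s : ℝ, 0 < s ∧ s ^ 2 * V = 1 :=
    ⟨(Real.sqrt V)⁻¹, by positivity, by
      rw [inv_pow, Real.sq_sqrt hV0.le, inv_mul_cancel₀ hV0.ne']⟩
  have hvol : ∀ S : Set (EuclideanSpace ℝ (Fin 2)),
      volume (s • S) = ENNReal.ofReal (s ^ 2) * volume S := by
    intro S
    rw [Measure.addHaar_smul, finrank_euclideanSpace_fin, abs_of_pos (by positivity)]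
  have hone : ENNReal.ofReal (s ^ 2) * volume K0 = 1 := by
    rw [hVe, ← ENNReal.ofReal_mul (by positivity), hs2, ENNReal.ofReal_one]
  refine ⟨s • K0, hK0.smul s, (convex_convexHull ℝ _).smul s, ?_, ?_, ?_⟩
  · rw [interior_smul₀ hs.ne']
    exact hK0i.smul_set
  · rw [hvol, hone]
  · intro A B C hBA hCA h hsub
    have hinv : convexHull ℝ ({A, B, C} : Set (EuclideanSpace ℝ (Fin 2))) =
        s • convexHull ℝ ({s⁻¹ • A, s⁻¹ • B, s⁻¹ • C} : Set (EuclideanSpace ℝ (Fin 2))) := by
      rw [← convexHull_smul, Set.smul_set_insert, Set.smul_set_insert, Set.smul_set_singleton,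
        smul_inv_smul₀ hs.ne', smul_inv_smul₀ hs.ne', smul_inv_smul₀ hs.ne']
    rw [hinv] at hsub ⊢
    rw [Set.smul_set_subset_smul_set_iff₀ hs.ne'] at hsub
    have hm := Pool.Agent.V11164.RightTri.main (A := s⁻¹ • A) (B := s⁻¹ • B) (C := s⁻¹ • C)
      (fun e => hBA (smul_right_injective _ (inv_ne_zero hs.ne') e))
      (fun e => hCA (smul_right_injective _ (inv_ne_zero hs.ne') e))
      (by rw [← smul_sub, ← smul_sub, inner_smul_left, inner_smul_right, h]; simp) hsub
    rw [hvol]
    calc (2 : ENNReal) = ENNReal.ofReal (s ^ 2) * (2 * volume K0) := by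
          rw [mul_left_comm, hone, mul_one]
      _ < _ := by
          rw [ENNReal.mul_lt_mul_iff_right (by positivity) ENNReal.ofReal_ne_top]
          exact hm

end Pool.Agent.Results.MP_49a3fa_co.PentagonCounterexample
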